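import Mathlib

set_option autoImplicit false

namespace Pool.Agent.H67Z.SqPerm

/-- two adjacent order-isomorphic blocks of length `l` starting at `i` -/
def Sq {α : Type} [LT α] (f : ℕ → α) (i l : ℕ) : Prop :=
  ∀ a < l, ∀ b < l, (f (i + a) < f (i + b) ↔ f (i + l + a) < f (i + l + b))

instance {α : Type} [LT α] [DecidableLT α] (f : ℕ → α) (i l : ℕ) : Decidable (Sq f i l) := by
  unfold Sq; infer_instance

theorem Sq.of_iff {α β : Type} [LT α] [LT β] {f : ℕ → α} {g : ℕ → β} {i l : ℕ}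
    (h : ∀ x y, i ≤ x → x < i + 2 * l → i ≤ y → y < i + 2 * l → (f x < f y ↔ g x < g y))
    (hs : Sq f i l) : Sq g i l := by
  intro a ha b hb
  rw [← h _ _ (by omega) (by omega) (by omega) (by omega),
    ← h _ _ (by omega) (by omega) (by omega) (by omega)]
  exact hs a ha b hb

theorem Sq.shift {α β : Type} [LT α] [LT β] {f : ℕ → α} {g : ℕ → β} {i i' l : ℕ}
    (h : ∀ x y, x < 2 * l → y < 2 * l → (f (i + x) < f (i + y) ↔ g (i' + x) < g (i' + y)))
    (hs : Sq f i l) : Sq g i' l := by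
  intro a ha b hb
  have h1 := h a b (by omega) (by omega)
  have h2 := h (l + a) (l + b) (by omega) (by omega)
  rw [← add_assoc, ← add_assoc, ← add_assoc, ← add_assoc] at h2
  rw [← h1, ← h2]
  exact hs a ha b hb

theorem Sq.symm {α : Type} [LT α] {f g : ℕ → α} {i l N : ℕ} (hN : i + 2 * l ≤ N)
    (h : ∀ x y, x < N → y < N → (g x < g y ↔ f (N - 1 - y) < f (N - 1 - x)))
    (hs : Sq f i l) : Sq g (N - i - 2 * l) l := by
  intro a ha b hb
  rw [h _ _ (by omega) (by omega), h _ _ (by omega) (by omega)]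
  have h1 := hs (l - 1 - b) (by omega) (l - 1 - a) (by omega)
  have e1 : N - 1 - (N - i - 2 * l + b) = i + l + (l - 1 - b) := by omega
  have e2 : N - 1 - (N - i - 2 * l + a) = i + l + (l - 1 - a) := by omega
  have e3 : N - 1 - (N - i - 2 * l + l + b) = i + (l - 1 - b) := by omega
  have e4 : N - 1 - (N - i - 2 * l + l + a) = i + (l - 1 - a) := by omega
  rw [e1, e2, e3, e4]
  exact h1.symm

theorem sq2_up {α : Type} [LinearOrder α] {g : ℕ → α} {i : ℕ} (h1 : g i < g (i + 1))
    (h2 : g (i + 2) < g (i + 3)) : Sq g i 2 := by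
  intro a ha b hb
  have h1' := not_lt.2 h1.le
  have h2' := not_lt.2 h2.le
  interval_cases a <;> interval_cases b <;> simp [h1, h2, h1', h2', add_assoc]

theorem sq2_down {α : Type} [LinearOrder α] {g : ℕ → α} {i : ℕ} (h1 : g (i + 1) < g i)
    (h2 : g (i + 3) < g (i + 2)) : Sq g i 2 := by
  intro a ha b hb
  have h1' := not_lt.2 h1.le
  have h2' := not_lt.2 h2.le
  interval_cases a <;> interval_cases b <;> simp [h1, h2, h1', h2', add_assoc]

/-- the paperfolding-like middle part -/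
def U : ℕ → ℕ → ℤ
  | 0, _ => 0
  | j + 1, y => if y % 2 = 0 then U j (y / 2) else
      if y % 4 = 3 then (y : ℤ) - (2 ^ (j + 2) - 3) else (y : ℤ) + (2 ^ (j + 2) - 3) - 2 ^ (j + 1)

theorem U_succ (j y : ℕ) : U (j + 1) y = if y % 2 = 0 then U j (y / 2) else
      if y % 4 = 3 then (y : ℤ) - (4 * (2 ^ j : ℕ) - 3) else
        (y : ℤ) + (4 * (2 ^ j : ℕ) - 3) - 2 * (2 ^ j : ℕ) := by
  rw [U]
  push_cast
  rw [pow_succ, pow_succ]
  split_ifs <;> ring

theorem U_bound : ∀ (j y : ℕ), 0 < y → y < 2 ^ j →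
    -(2 * ((2 ^ j : ℕ) : ℤ) - 3) < U j y ∧ U j y < 2 * ((2 ^ j : ℕ) : ℤ) - 3
  | 0, y, h1, h2 => by simp at h2; omega
  | j + 1, y, h1, h2 => by
    rw [U_succ]
    have hp : 2 ^ (j + 1) = 2 * 2 ^ j := by ring
    rw [hp] at h2 ⊢
    split_ifs with c1 c2
    · have := U_bound j (y / 2) (by omega) (by omega)
      omega
    · omega
    · omega

theorem U_anti : ∀ (j y : ℕ), 0 < y → y < 2 ^ j → U j (2 ^ j - y) = - U j y
  | 0, y, h1, h2 => by simp at h2; omega
  | j + 1, y, h1, h2 => by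
    rw [U_succ, U_succ]
    have hp : 2 ^ (j + 1) = 2 * 2 ^ j := by ring
    rw [hp] at h2 ⊢
    by_cases c1 : y % 2 = 0
    · have := U_anti j (y / 2) (by omega) (by omega)
      rw [if_pos c1, if_pos (by omega), ← this]
      congr 1
      omega
    · rw [if_neg c1, if_neg (by omega)]
      rcases j with _ | j
      · have : y = 1 := by simp at h2; omega
        subst this
        simp
      · have hp2 : 2 ^ (j + 1) = 2 * 2 ^ j := by ring
        rw [hp2] at h2 ⊢
        split_ifs <;> omega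

theorem U_inj : ∀ (j y z : ℕ), 0 < y → y < 2 ^ j → 0 < z → z < 2 ^ j → U j y = U j z → y = z
  | 0, y, z, h1, h2, _, _, _ => by simp at h2; omega
  | j + 1, y, z, h1, h2, h3, h4, h => by
    rw [U_succ, U_succ] at h
    have hp : 2 ^ (j + 1) = 2 * 2 ^ j := by ring
    rw [hp] at h2 h4
    by_cases c1 : y % 2 = 0 <;> by_cases c2 : z % 2 = 0
    · rw [if_pos c1, if_pos c2] at h
      have := U_inj j (y / 2) (z / 2) (by omega) (by omega) (by omega) (by omega) h
      omega
    · rw [if_pos c1, if_neg c2] at h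
      have := U_bound j (y / 2) (by omega) (by omega)
      split_ifs at h <;> omega
    · rw [if_neg c1, if_pos c2] at h
      have := U_bound j (z / 2) (by omega) (by omega)
      split_ifs at h <;> omega
    · rw [if_neg c1, if_neg c2] at h
      split_ifs at h <;> omega

theorem U_stable : ∀ (j k y z : ℕ), 0 < y → y < 2 ^ j → 0 < z → z < 2 ^ j → y < 2 ^ k → z < 2 ^ k →
    (U j y < U j z ↔ U k y < U k z)
  | 0, _, y, z, h1, h2, _, _, _, _ => by simp at h2; omega
  | _ + 1, 0, y, z, h1, _, _, _, h2, _ => by simp at h2; omega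
  | j + 1, k + 1, y, z, h1, h2, h3, h4, h5, h6 => by
    rw [U_succ, U_succ, U_succ, U_succ]
    have hp : 2 ^ (j + 1) = 2 * 2 ^ j := by ring
    have hq : 2 ^ (k + 1) = 2 * 2 ^ k := by ring
    rw [hp] at h2 h4
    rw [hq] at h5 h6
    by_cases c1 : y % 2 = 0 <;> by_cases c2 : z % 2 = 0
    · simp only [if_pos c1, if_pos c2]
      exact U_stable j k (y / 2) (z / 2) (by omega) (by omega) (by omega) (by omega) (by omega)
        (by omega)
    · simp only [if_pos c1, if_neg c2]
      have := U_bound j (y / 2) (by omega) (by omega)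
      have := U_bound k (y / 2) (by omega) (by omega)
      split_ifs <;> omega
    · simp only [if_neg c1, if_pos c2]
      have := U_bound j (z / 2) (by omega) (by omega)
      have := U_bound k (z / 2) (by omega) (by omega)
      split_ifs <;> omega
    · simp only [if_neg c1, if_neg c2]
      split_ifs <;> omega

/-- low < medium < high -/
theorem U_med_high (j y z : ℕ) (h1 : 0 < y) (h2 : y < 2 ^ j) (h4 : z < 2 ^ j)
    (hy : y % 2 = 0) (hz : z % 4 = 1) : U j y < U j z := by
  rcases j with _ | j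
  · simp at h2; omega
  rw [U_succ, U_succ]
  have hp : 2 ^ (j + 1) = 2 * 2 ^ j := by ring
  rw [hp] at h2 h4
  have := U_bound j (y / 2) (by omega) (by omega)
  rw [if_pos hy, if_neg (by omega), if_neg (by omega)]
  omega

theorem U_low_med (j y z : ℕ) (h1 : 0 < y) (h2 : y < 2 ^ j) (h4 : z < 2 ^ j)
    (hy : y % 2 = 0) (hz : z % 4 = 3) : U j z < U j y := by
  rcases j with _ | j
  · simp at h2; omega
  rw [U_succ, U_succ]
  have hp : 2 ^ (j + 1) = 2 * 2 ^ j := by ring
  rw [hp] at h2 h4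
  have := U_bound j (y / 2) (by omega) (by omega)
  rw [if_pos hy, if_neg (by omega), if_pos (by omega)]
  omega

theorem U_step (j y : ℕ) (h1 : 0 < y) (h2 : y + 1 < 2 ^ j) :
    U j y < U j (y + 1) ↔ (y % 4 = 3 ∨ y % 4 = 0) := by
  have h : y % 4 = 0 ∨ y % 4 = 1 ∨ y % 4 = 2 ∨ y % 4 = 3 := by omega
  rcases h with h | h | h | h
  · have := U_med_high j y (y + 1) h1 (by omega) h2 (by omega) (by omega)
    simp [this, h]
  · have := U_med_high j (y + 1) y (by omega) h2 (by omega) (by omega) (by omega)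
    simp [not_lt.2 this.le, h]
  · have := U_low_med j y (y + 1) h1 (by omega) h2 (by omega) (by omega)
    simp [not_lt.2 this.le, h]
  · have := U_low_med j (y + 1) y (by omega) h2 (by omega) (by omega) (by omega)
    simp [this, h]

/-- the up-up-down-down shape forces the half length of a square to be a multiple of four -/
theorem mod_four {α : Type} [LT α] {f : ℕ → α} {i l c : ℕ} (hl : 2 ≤ l)
    (hstep : ∀ x, i ≤ x → x + 1 < i + 2 * l →
      (f x < f (x + 1) ↔ ((x + c) % 4 = 1 ∨ (x + c) % 4 = 2)))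
    (hs : Sq f i l) : l % 4 = 0 := by
  have h1 := hs 0 (by omega) 1 (by omega)
  rw [add_zero, add_zero, hstep i (by omega) (by omega), hstep (i + l) (by omega) (by omega)] at h1
  by_cases h2 : l = 2
  · omega
  · have h3 := hs 1 (by omega) 2 (by omega)
    have e1 := hstep (i + 1) (by omega) (by omega)
    have e2 := hstep (i + l + 1) (by omega) (by omega)
    rw [add_assoc i 1 1] at e1
    rw [add_assoc (i + l) 1 1] at e2
    rw [e1, e2] at h3
    omega

theorem U_sqfree : ∀ (j i l : ℕ), 0 < i → 2 ≤ l → i + 2 * l ≤ 2 ^ j → ¬ Sq (U j) i l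
  | 0, i, l, h1, h2, h3 => by simp at h3; omega
  | j + 1, i, l, h1, h2, h3 => by
    intro hs
    have h4 : l % 4 = 0 := by
      refine mod_four (c := 2) h2 (fun x hx hx' => ?_) hs
      rw [U_step _ _ (by omega) (by omega)]
      omega
    have hp : 2 ^ (j + 1) = 2 * 2 ^ j := by ring
    refine U_sqfree j ((i + 1) / 2) (l / 2) (by omega) (by omega) (by omega) ?_
    intro a ha b hb
    have h5 := hs (2 * a + i % 2) (by omega) (2 * b + i % 2) (by omega)
    rw [U_succ, U_succ, U_succ, U_succ, if_pos (by omega), if_pos (by omega), if_pos (by omega),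
      if_pos (by omega)] at h5
    have e1 : (i + (2 * a + i % 2)) / 2 = (i + 1) / 2 + a := by omega
    have e2 : (i + (2 * b + i % 2)) / 2 = (i + 1) / 2 + b := by omega
    have e3 : (i + l + (2 * a + i % 2)) / 2 = (i + 1) / 2 + l / 2 + a := by omega
    have e4 : (i + l + (2 * b + i % 2)) / 2 = (i + 1) / 2 + l / 2 + b := by omega
    rw [e1, e2, e3, e4] at h5
    exact h5

/-- the prefix gadget -/
def P (x : ℕ) : ℤ :=
  ([11, 5, 6, 10, 9, 7, 8, 20, 3, 2, 4, 19, 17, 14, 16, 18, 1, 0, 12, 15, 13] : List ℤ).getD x 0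

theorem P_nonneg : ∀ x < 21, 0 ≤ P x := by decide

theorem P_inj : ∀ x < 21, ∀ y < 21, P x = P y → x = y := by decide +kernel

theorem P_step : ∀ x < 20, (P x < P (x + 1) ↔ (x % 4 = 1 ∨ x % 4 = 2)) := by decide +kernel

/-- the whole sequence -/
def W (j x : ℕ) : ℤ :=
  if x < 21 then P x + 2 * (2 ^ j : ℕ) else
    if x < 2 ^ j + 16 then U j (x - 18) else -(P (2 ^ j + 36 - x) + 2 * (2 ^ j : ℕ))

theorem pow_facts (j : ℕ) (hj : 6 ≤ j) : 64 ≤ 2 ^ j ∧ 2 ^ j % 4 = 0 := by
  obtain ⟨m, rfl⟩ := Nat.exists_eq_add_of_le hj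
  have : 0 < 2 ^ m := by positivity
  rw [pow_add]
  omega

theorem W_anti (j : ℕ) (hj : 6 ≤ j) (x : ℕ) (hx : x < 2 ^ j + 37) :
    W j (2 ^ j + 37 - 1 - x) = - W j x := by
  obtain ⟨h1, h2⟩ := pow_facts j hj
  unfold W
  by_cases c1 : x < 21
  · rw [if_neg (by omega), if_neg (by omega), if_pos c1]
    congr 3
    omega
  · by_cases c2 : x < 2 ^ j + 16
    · rw [if_neg (by omega), if_pos (by omega), if_neg c1, if_pos c2,
        ← U_anti j (x - 18) (by omega) (by omega)]
      congr 1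
      omega
    · rw [if_pos (by omega), if_neg c1, if_neg c2, neg_neg]
      congr 2

theorem W_inj (j : ℕ) (hj : 6 ≤ j) (x y : ℕ) (hx : x < 2 ^ j + 37) (hy : y < 2 ^ j + 37)
    (h : W j x = W j y) : x = y := by
  obtain ⟨h1, h2⟩ := pow_facts j hj
  unfold W at h
  have a1 : x < 21 → 0 ≤ P x := P_nonneg x
  have a2 : y < 21 → 0 ≤ P y := P_nonneg y
  have a3 : 2 ^ j + 36 - x < 21 → 0 ≤ P (2 ^ j + 36 - x) := P_nonneg _
  have a4 : 2 ^ j + 36 - y < 21 → 0 ≤ P (2 ^ j + 36 - y) := P_nonneg _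
  have b1 := U_bound j (x - 18)
  have b2 := U_bound j (y - 18)
  split_ifs at h with c1 c2 c3 c4 c5 c6 c7 c8
  · exact P_inj x c1 y c2 (by omega)
  · have := b2 (by omega) (by omega); omega
  · omega
  · have := b1 (by omega) (by omega); omega
  · have := U_inj j (x - 18) (y - 18) (by omega) (by omega) (by omega) (by omega) h
    omega
  · have := b1 (by omega) (by omega); omega
  · omega
  · have := b2 (by omega) (by omega); omega
  · have := P_inj (2 ^ j + 36 - x) (by omega) (2 ^ j + 36 - y) (by omega) (by omega)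
    omega

theorem W_step_left (j : ℕ) (hj : 6 ≤ j) (x : ℕ) (hx : x + 1 < 2 ^ j + 16) :
    W j x < W j (x + 1) ↔ (x % 4 = 1 ∨ x % 4 = 2) := by
  obtain ⟨h1, h2⟩ := pow_facts j hj
  unfold W
  by_cases c1 : x < 20
  · rw [if_pos (by omega), if_pos (by omega), ← P_step x c1]
    omega
  · by_cases c2 : x = 20
    · subst c2
      have := U_bound j 3 (by omega) (by omega)
      have := P_nonneg 20 (by omega)
      rw [if_pos (by omega), if_neg (by omega), if_pos (by omega)]
      norm_num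
      push_cast at *
      omega
    · rw [if_neg (by omega), if_pos (by omega), if_neg (by omega), if_pos (by omega)]
      have e : x + 1 - 18 = x - 18 + 1 := by omega
      rw [e, U_step _ _ (by omega) (by omega)]
      omega

theorem W_step (j : ℕ) (hj : 6 ≤ j) (x : ℕ) (hx : x + 1 < 2 ^ j + 37) :
    W j x < W j (x + 1) ↔ (x % 4 = 1 ∨ x % 4 = 2) := by
  obtain ⟨h1, h2⟩ := pow_facts j hj
  by_cases c : x + 1 < 2 ^ j + 16
  · exact W_step_left j hj x c
  · have e1 := W_anti j hj x (by omega)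
    have e2 := W_anti j hj (x + 1) (by omega)
    have e3 := W_step_left j hj (2 ^ j + 37 - 1 - (x + 1)) (by omega)
    have e4 : 2 ^ j + 37 - 1 - (x + 1) + 1 = 2 ^ j + 37 - 1 - x := by omega
    rw [e4, e1, e2] at e3
    rw [neg_lt_neg_iff] at e3
    rw [e3]
    omega

theorem W_stable (j : ℕ) (hj : 6 ≤ j) (x y : ℕ) (hx : x < 46) (hy : y < 46) :
    W j x < W j y ↔ W 6 x < W 6 y := by
  obtain ⟨h1, h2⟩ := pow_facts j hj
  have h3 : 2 ^ 6 = 64 := by norm_num
  unfold W
  have a1 : x < 21 → 0 ≤ P x := P_nonneg x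
  have a2 : y < 21 → 0 ≤ P y := P_nonneg y
  by_cases c1 : x < 21 <;> by_cases c2 : y < 21
  · simp only [if_pos c1, if_pos c2]
    omega
  · simp only [if_pos c1, if_neg c2]
    rw [if_pos (by omega), if_pos (by omega)]
    have := U_bound j (y - 18) (by omega) (by omega)
    have := U_bound 6 (y - 18) (by omega) (by omega)
    omega
  · simp only [if_neg c1, if_pos c2]
    rw [if_pos (by omega), if_pos (by omega)]
    have := U_bound j (x - 18) (by omega) (by omega)
    have := U_bound 6 (x - 18) (by omega) (by omega)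
    omega
  · simp only [if_neg c1, if_neg c2]
    rw [if_pos (by omega), if_pos (by omega), if_pos (by omega), if_pos (by omega)]
    exact U_stable j 6 _ _ (by omega) (by omega) (by omega) (by omega) (by omega) (by omega)

theorem W6_check : ∀ i < 21, ∀ l < 24, 2 ≤ l → i + l ≤ 23 → ¬ Sq (W 6) i l := by
  decide +kernel

theorem W_sqfree_left (j : ℕ) (hj : 6 ≤ j) (i l : ℕ) (hl : 2 ≤ l) (hn : i + 2 * l ≤ 2 ^ j + 37)
    (hi : i < 21) : ¬ Sq (W j) i l := by
  obtain ⟨h1, h2⟩ := pow_facts j hj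
  intro hs
  have h4 : l % 4 = 0 := by
    refine mod_four (c := 0) hl (fun x hx hx' => ?_) hs
    exact W_step j hj x (by omega)
  by_cases c : i + l ≤ 23
  · refine W6_check i hi l (by omega) hl c (Sq.of_iff (fun x y _ hx _ hy => ?_) hs)
    exact W_stable j hj x y (by omega) (by omega)
  · have h5 := hs (23 - i) (by omega) (20 - i) (by omega)
    have e1 : i + (23 - i) = 23 := by omega
    have e2 : i + (20 - i) = 20 := by omega
    have e3 : i + l + (23 - i) = 23 + l := by omega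
    have e4 : i + l + (20 - i) = 20 + l := by omega
    rw [e1, e2, e3, e4] at h5
    have h6 : W j 23 < W j 20 := (W_stable j hj 23 20 (by omega) (by omega)).2 (by decide +kernel)
    have h7 := h5.1 h6
    unfold W at h7
    rw [if_neg (by omega), if_pos (by omega), if_neg (by omega), if_pos (by omega)] at h7
    have := U_med_high j (20 + l - 18) (23 + l - 18) (by omega) (by omega) (by omega) (by omega)
      (by omega)
    omega

theorem W_sqfree (j : ℕ) (hj : 6 ≤ j) (i l : ℕ) (hl : 2 ≤ l) (hn : i + 2 * l ≤ 2 ^ j + 37) :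
    ¬ Sq (W j) i l := by
  obtain ⟨h1, h2⟩ := pow_facts j hj
  intro hs
  by_cases c1 : i < 21
  · exact W_sqfree_left j hj i l hl hn c1 hs
  by_cases c2 : 2 ^ j + 16 < i + 2 * l
  · refine W_sqfree_left j hj (2 ^ j + 37 - i - 2 * l) l hl (by omega) (by omega)
      (Sq.symm hn (fun x y hx hy => ?_) hs)
    rw [W_anti j hj x hx, W_anti j hj y hy, neg_lt_neg_iff]
  · refine U_sqfree j (i - 18) l (by omega) hl (by omega) (Sq.shift (fun x y hx hy => ?_) hs)
    unfold W
    rw [if_neg (by omega), if_pos (by omega), if_neg (by omega), if_pos (by omega)]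
    have e1 : i + x - 18 = i - 18 + x := by omega
    have e2 : i + y - 18 = i - 18 + y := by omega
    rw [e1, e2]

/-- insertion of the value `x` at slot `p` -/
def ins (f : ℕ → ℚ) (p : ℕ) (x : ℚ) (q : ℕ) : ℚ :=
  if q < p then f q else if q = p then x else f (q - 1)

theorem ins_lt {f : ℕ → ℚ} {p q : ℕ} {x : ℚ} (h : q < p) : ins f p x q = f q := if_pos h

theorem ins_eq {f : ℕ → ℚ} {p : ℕ} {x : ℚ} : ins f p x p = x := by simp [ins]

theorem ins_gt {f : ℕ → ℚ} {p q : ℕ} {x : ℚ} (h : p ≤ q) : ins f p x (q + 1) = f q := by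
  rw [ins, if_neg (by omega), if_neg (by omega)]
  simp

theorem ins_mid {f : ℕ → ℚ} {n r : ℕ} {x : ℚ} (hr : r + 6 ≤ n)
    (hup : ∀ q, q + 1 < n → (q % 4 = 1 ∨ q % 4 = 2) → f q < f (q + 1))
    (hdown : ∀ q, q + 1 < n → (q % 4 = 3 ∨ q % 4 = 0) → f (q + 1) < f q)
    (hx : ∀ q < n, x ≠ f q) :
    ∃ i l : ℕ, 2 ≤ l ∧ i + 2 * l ≤ n + 1 ∧ Sq (ins f (r + 3) x) i l := by
  have g0 : ins f (r + 3) x r = f r := ins_lt (by omega)
  have g1 : ins f (r + 3) x (r + 1) = f (r + 1) := ins_lt (by omega)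
  have g2 : ins f (r + 3) x (r + 2) = f (r + 2) := ins_lt (by omega)
  have g3 : ins f (r + 3) x (r + 3) = x := ins_eq
  have g4 : ins f (r + 3) x (r + 4) = f (r + 3) := ins_gt (by omega)
  have g5 : ins f (r + 3) x (r + 5) = f (r + 4) := ins_gt (by omega)
  have g6 : ins f (r + 3) x (r + 6) = f (r + 5) := ins_gt (by omega)
  have u0 := hup r (by omega)
  have u1 := hup (r + 1) (by omega)
  have u3 := hup (r + 3) (by omega)
  have u4 := hup (r + 4) (by omega)
  have d0 := hdown r (by omega)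
  have d1 := hdown (r + 1) (by omega)
  have d3 := hdown (r + 3) (by omega)
  have d4 := hdown (r + 4) (by omega)
  have s0u : f r < f (r + 1) → f (r + 2) < x → Sq (ins f (r + 3) x) r 2 := fun a b =>
    sq2_up (by rw [g0, g1]; exact a) (by rw [g2, g3]; exact b)
  have s0d : f (r + 1) < f r → x < f (r + 2) → Sq (ins f (r + 3) x) r 2 := fun a b =>
    sq2_down (by rw [g0, g1]; exact a) (by rw [g2, g3]; exact b)
  have s1u : f (r + 1) < f (r + 2) → x < f (r + 3) → Sq (ins f (r + 3) x) (r + 1) 2 := fun a b =>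
    sq2_up (by rw [g1, g2]; exact a) (by rw [g3, g4]; exact b)
  have s1d : f (r + 2) < f (r + 1) → f (r + 3) < x → Sq (ins f (r + 3) x) (r + 1) 2 := fun a b =>
    sq2_down (by rw [g1, g2]; exact a) (by rw [g3, g4]; exact b)
  have s2u : f (r + 2) < x → f (r + 3) < f (r + 4) → Sq (ins f (r + 3) x) (r + 2) 2 := fun a b =>
    sq2_up (by rw [g2, g3]; exact a) (by rw [g4, g5]; exact b)
  have s2d : x < f (r + 2) → f (r + 4) < f (r + 3) → Sq (ins f (r + 3) x) (r + 2) 2 := fun a b =>
    sq2_down (by rw [g2, g3]; exact a) (by rw [g4, g5]; exact b)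
  have s3u : x < f (r + 3) → f (r + 4) < f (r + 5) → Sq (ins f (r + 3) x) (r + 3) 2 := fun a b =>
    sq2_up (by rw [g3, g4]; exact a) (by rw [g5, g6]; exact b)
  have s3d : f (r + 3) < x → f (r + 5) < f (r + 4) → Sq (ins f (r + 3) x) (r + 3) 2 := fun a b =>
    sq2_down (by rw [g3, g4]; exact a) (by rw [g5, g6]; exact b)
  have hc := lt_or_gt_of_ne (hx (r + 2) (by omega))
  have hd := lt_or_gt_of_ne (hx (r + 3) (by omega))
  have h : r % 4 = 0 ∨ r % 4 = 1 ∨ r % 4 = 2 ∨ r % 4 = 3 := by omega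
  rcases h with h | h | h | h
  · rcases hd with hd | hd
    · exact ⟨r + 1, 2, le_rfl, by omega, s1u (u1 (by omega)) hd⟩
    · exact ⟨r + 3, 2, le_rfl, by omega, s3d hd (d4 (by omega))⟩
  · rcases hc with hc | hc
    · exact ⟨r + 2, 2, le_rfl, by omega, s2d hc (d3 (by omega))⟩
    · exact ⟨r, 2, le_rfl, by omega, s0u (u0 (by omega)) hc⟩
  · rcases hd with hd | hd
    · exact ⟨r + 3, 2, le_rfl, by omega, s3u hd (u4 (by omega))⟩
    · exact ⟨r + 1, 2, le_rfl, by omega, s1d (d1 (by omega)) hd⟩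
  · rcases hc with hc | hc
    · exact ⟨r, 2, le_rfl, by omega, s0d (d0 (by omega)) hc⟩
    · exact ⟨r + 2, 2, le_rfl, by omega, s2u hc (u3 (by omega))⟩

theorem ins_left {f : ℕ → ℚ} {B : ℚ} {p : ℕ} {x : ℚ} (hp : p ≤ 2)
    (hf : ∀ q < 21, f q = (P q : ℚ) + B) (hx : ∀ q < 21, x ≠ f q) :
    ∃ i l : ℕ, 2 ≤ l ∧ i + 2 * l ≤ 16 ∧ Sq (ins f p x) i l := by
  have f0 : f 0 = 11 + B := by rw [hf 0 (by omega)]; simp [P]
  have f1 : f 1 = 5 + B := by rw [hf 1 (by omega)]; simp [P]
  have f2 : f 2 = 6 + B := by rw [hf 2 (by omega)]; simp [P]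
  have f3 : f 3 = 10 + B := by rw [hf 3 (by omega)]; simp [P]
  have f4 : f 4 = 9 + B := by rw [hf 4 (by omega)]; simp [P]
  have f5 : f 5 = 7 + B := by rw [hf 5 (by omega)]; simp [P]
  have f6 : f 6 = 8 + B := by rw [hf 6 (by omega)]; simp [P]
  have f7 : f 7 = 20 + B := by rw [hf 7 (by omega)]; simp [P]
  have f8 : f 8 = 3 + B := by rw [hf 8 (by omega)]; simp [P]
  have f9 : f 9 = 2 + B := by rw [hf 9 (by omega)]; simp [P]
  have f10 : f 10 = 4 + B := by rw [hf 10 (by omega)]; simp [P]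
  have f11 : f 11 = 19 + B := by rw [hf 11 (by omega)]; simp [P]
  have f12 : f 12 = 17 + B := by rw [hf 12 (by omega)]; simp [P]
  have f13 : f 13 = 14 + B := by rw [hf 13 (by omega)]; simp [P]
  have f14 : f 14 = 16 + B := by rw [hf 14 (by omega)]; simp [P]
  obtain ⟨z, rfl⟩ : ∃ z, x = z + B := ⟨x - B, by ring⟩
  have x0 : z ≠ 11 := fun h => hx 0 (by omega) (by rw [f0, h])
  have x1 : z ≠ 5 := fun h => hx 1 (by omega) (by rw [f1, h])
  have x2 : z ≠ 6 := fun h => hx 2 (by omega) (by rw [f2, h])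
  interval_cases p
  · rcases lt_or_gt_of_ne x0 with h | h
    · refine ⟨0, 2, le_rfl, by omega, sq2_up ?_ ?_⟩ <;> simp [ins, f0, f1, f2, h]
      norm_num
    · refine ⟨0, 4, by omega, by omega, ?_⟩
      intro a ha b hb
      interval_cases a <;> interval_cases b <;>
        simp [ins, f0, f1, f2, f3, f4, f5, f6] <;> norm_num <;> linarith
  · rcases lt_or_gt_of_ne x0 with h | h
    · rcases lt_or_gt_of_ne x2 with h2 | h2
      · rcases lt_or_gt_of_ne x1 with h1 | h1
        · refine ⟨1, 2, le_rfl, by omega, sq2_up ?_ ?_⟩ <;> simp [ins, f1, f2, f3, h1]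
          norm_num
        · refine ⟨0, 8, by omega, by omega, ?_⟩
          intro a ha b hb
          interval_cases a <;> interval_cases b <;>
            simp [ins, f0, f1, f2, f3, f4, f5, f6, f7, f8, f9, f10, f11, f12, f13, f14] <;>
            norm_num <;> linarith
      · refine ⟨0, 4, by omega, by omega, ?_⟩
        intro a ha b hb
        interval_cases a <;> interval_cases b <;>
          simp [ins, f0, f1, f2, f3, f4, f5, f6] <;> norm_num <;> linarith
    · refine ⟨0, 2, le_rfl, by omega, sq2_up ?_ ?_⟩ <;> simp [ins, f0, f1, f2, h]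
      norm_num
  · rcases lt_or_gt_of_ne x1 with h1 | h1
    · refine ⟨0, 8, by omega, by omega, ?_⟩
      intro a ha b hb
      interval_cases a <;> interval_cases b <;>
        simp [ins, f0, f1, f2, f3, f4, f5, f6, f7, f8, f9, f10, f11, f12, f13, f14] <;>
        norm_num <;> linarith
    · rcases lt_or_gt_of_ne x2 with h2 | h2
      · refine ⟨1, 2, le_rfl, by omega, sq2_up ?_ ?_⟩ <;> simp [ins, f1, f2, f3, h1]
        norm_num
      · refine ⟨0, 2, le_rfl, by omega, sq2_down ?_ ?_⟩ <;> simp [ins, f0, f1, f2, h2]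
        norm_num

theorem W_crucial (j : ℕ) (hj : 6 ≤ j) (p : ℕ) (hp : p ≤ 2 ^ j + 37) (x : ℚ)
    (hx : ∀ q < 2 ^ j + 37, x ≠ (W j q : ℚ)) :
    ∃ i l : ℕ, 2 ≤ l ∧ i + 2 * l ≤ 2 ^ j + 37 + 1 ∧ Sq (ins (fun q => (W j q : ℚ)) p x) i l := by
  obtain ⟨h1, h2⟩ := pow_facts j hj
  have hf : ∀ q < 21, (fun q => (W j q : ℚ)) q = (P q : ℚ) + 2 * (2 ^ j : ℕ) := by
    intro q hq
    simp [W, hq]
  by_cases c1 : p ≤ 2
  · obtain ⟨i, l, a1, a2, a3⟩ := ins_left (x := x) c1 hf (fun q hq => hx q (by omega))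
    exact ⟨i, l, a1, by omega, a3⟩
  by_cases c2 : 2 ^ j + 35 ≤ p
  · have hx' : ∀ q < 21, -x ≠ (fun q => (W j q : ℚ)) q := by
      intro q hq h
      refine hx (2 ^ j + 37 - 1 - q) (by omega) ?_
      rw [W_anti j hj q (by omega)]
      push_cast
      simp only at h
      linarith
    obtain ⟨i, l, a1, a2, a3⟩ := ins_left (p := 2 ^ j + 37 - p) (x := -x) (by omega) hf hx'
    refine ⟨2 ^ j + 38 - i - 2 * l, l, a1, by omega, Sq.symm (by omega) ?_ a3⟩
    have key : ∀ y < 2 ^ j + 38, ins (fun q => (W j q : ℚ)) (2 ^ j + 37 - p) (-x)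
        (2 ^ j + 38 - 1 - y) = - ins (fun q => (W j q : ℚ)) p x y := by
      intro y hy
      unfold ins
      by_cases d1 : y < p
      · rw [if_neg (by omega), if_neg (by omega), if_pos d1]
        have := W_anti j hj y (by omega)
        have e : 2 ^ j + 38 - 1 - y - 1 = 2 ^ j + 37 - 1 - y := by omega
        simp only [e, this]
        push_cast
        rfl
      · by_cases d2 : y = p
        · rw [if_neg (by omega), if_pos (by omega), if_neg d1, if_pos d2]
        · rw [if_pos (by omega), if_neg d1, if_neg d2]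
          have := W_anti j hj (y - 1) (by omega)
          have e : 2 ^ j + 38 - 1 - y = 2 ^ j + 37 - 1 - (y - 1) := by omega
          simp only [e, this]
          push_cast
          rfl
    intro y z hy hz
    rw [key y hy, key z hz, neg_lt_neg_iff]
  · obtain ⟨r, rfl⟩ : ∃ r, p = r + 3 := ⟨p - 3, by omega⟩
    refine ins_mid (by omega) (fun q hq h => ?_) (fun q hq h => ?_) hx
    · exact_mod_cast (W_step j hj q hq).2 h
    · have a1 : ¬ W j q < W j (q + 1) := by rw [W_step j hj q hq]; omega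
      have a2 : W j q ≠ W j (q + 1) := fun h => by
        have := W_inj j hj q (q + 1) (by omega) hq h
        omega
      have a3 : W j (q + 1) < W j q := by omega
      exact_mod_cast a3

theorem getD_map_range (f : ℕ → ℚ) (n q : ℕ) (hq : q < n) :
    ((List.range n).map f).getD q 0 = f q := by
  simp [List.getD_eq_getElem?_getD, hq]

theorem getD_ins (f : ℕ → ℚ) (n p q : ℕ) (x : ℚ) (hp : p ≤ n) (hq : q < n + 1) :
    (((List.range n).map f).take p ++ x :: ((List.range n).map f).drop p).getD q 0 =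
      ins f p x q := by
  have hl : (((List.range n).map f).take p).length = p := by simp [hp]
  unfold ins
  by_cases d1 : q < p
  · rw [if_pos d1, List.getD_append _ _ _ _ (by omega)]
    simp [List.getD_eq_getElem?_getD, d1, show q < n by omega]
  · rw [if_neg d1, List.getD_append_right _ _ _ _ (by omega), hl]
    by_cases d2 : q = p
    · subst d2
      simp
    · rw [if_neg d2]
      obtain ⟨t, rfl⟩ : ∃ t, q = p + t + 1 := ⟨q - p - 1, by omega⟩
      have e : p + t + 1 - p = t + 1 := by omega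
      rw [e, List.getD_cons_succ]
      simp [List.getD_eq_getElem?_getD, show p + t < n by omega]

theorem main :
    ∀ N : ℕ, ∃ w : List ℚ, N ≤ w.length ∧ w.Nodup ∧
      (¬ ∃ i ℓ : ℕ, 2 ≤ ℓ ∧ i + 2 * ℓ ≤ w.length ∧
          ∀ a < ℓ, ∀ b < ℓ,
            (w.getD (i + a) 0 < w.getD (i + b) 0 ↔
              w.getD (i + ℓ + a) 0 < w.getD (i + ℓ + b) 0)) ∧
      ∀ p : ℕ, p ≤ w.length → ∀ x : ℚ, x ∉ w →
        ∃ i ℓ : ℕ, 2 ≤ ℓ ∧ i + 2 * ℓ ≤ w.length + 1 ∧
          ∀ a < ℓ, ∀ b < ℓ,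
            ((w.take p ++ x :: w.drop p).getD (i + a) 0 <
                (w.take p ++ x :: w.drop p).getD (i + b) 0 ↔
              (w.take p ++ x :: w.drop p).getD (i + ℓ + a) 0 <
                (w.take p ++ x :: w.drop p).getD (i + ℓ + b) 0) := by
  intro N
  have hj : 6 ≤ N + 6 := by omega
  set j := N + 6 with hjdef
  have hN : j < 2 ^ j := Nat.lt_two_pow_self
  have hlen : ((List.range (2 ^ j + 37)).map (fun q => (W j q : ℚ))).length = 2 ^ j + 37 := by simp
  refine ⟨(List.range (2 ^ j + 37)).map (fun q => (W j q : ℚ)), by omega, ?_, ?_, ?_⟩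
  · refine List.Nodup.map_on (fun x hx y hy h => ?_) List.nodup_range
    exact W_inj j hj x y (List.mem_range.1 hx) (List.mem_range.1 hy) (by exact_mod_cast h)
  · rintro ⟨i, l, h1, h2, h3⟩
    rw [hlen] at h2
    refine W_sqfree j hj i l h1 h2 (Sq.of_iff (f := fun q =>
      ((List.range (2 ^ j + 37)).map (fun q => (W j q : ℚ))).getD q 0) (fun x y _ hx _ hy => ?_) h3)
    rw [getD_map_range _ _ _ (by omega), getD_map_range _ _ _ (by omega)]
    exact Int.cast_lt
  · intro p hp x hx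
    rw [hlen] at hp ⊢
    obtain ⟨i, l, h1, h2, h3⟩ := W_crucial j hj p hp x (fun q hq h => hx (by
      rw [h]
      exact List.mem_map.2 ⟨q, List.mem_range.2 hq, rfl⟩))
    refine ⟨i, l, h1, h2, ?_⟩
    refine Sq.of_iff (g := fun q => (((List.range (2 ^ j + 37)).map (fun q => (W j q : ℚ))).take p ++
      x :: ((List.range (2 ^ j + 37)).map (fun q => (W j q : ℚ))).drop p).getD q 0)
      (fun x y _ hx _ hy => ?_) h3
    rw [getD_ins _ _ _ _ _ hp (by omega), getD_ins _ _ _ _ _ hp (by omega)]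

end Pool.Agent.H67Z.SqPerm
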