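import Mathlib

set_option autoImplicit false

namespace Pool.Agent.H67Z.Titch

open AddMonoidAlgebra Finset

/-- the group algebra of the rationals -/
abbrev A : Type := AddMonoidAlgebra ℝ ℚ

/-- support contained in a set -/
def Supp (S : Set ℚ) (h : A) : Prop := ∀ t, h.coeff t ≠ 0 → t ∈ S

/-- sup-norm bound up to `R` -/
def Bd (c : ℝ) (R : ℚ) (h : A) : Prop := ∀ t, t ≤ R → |h.coeff t| ≤ c

/-- l1-norm bound -/
def NB (c : ℝ) (h : A) : Prop := ∀ s : Finset ℚ, ∑ t ∈ s, |h.coeff t| ≤ c

theorem coeff_mul' (a h : A) (t : ℚ) :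
    (a * h).coeff t = ∑ r ∈ a.coeff.support, a.coeff r * h.coeff (t - r) := by
  rw [AddMonoidAlgebra.coeff_mul_apply_left, Finsupp.sum]
  refine Finset.sum_congr rfl fun r _ => ?_
  congr 2
  ring

theorem coeff_single_mul' (r : ℚ) (h : A) (t : ℚ) :
    ((single r (1 : ℝ) : A) * h).coeff t = h.coeff (t - r) := by
  rw [AddMonoidAlgebra.coeff_single_mul_apply, one_mul]
  congr 1
  ring

theorem Supp.mono {S T : Set ℚ} {h : A} (hS : Supp S h) (hST : ∀ t ∈ S, t ∈ T) : Supp T h :=
  fun t ht => hST t (hS t ht)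

theorem Supp.mul {S T U : Set ℚ} {a b : A} (ha : Supp S a) (hb : Supp T b)
    (hU : ∀ s ∈ S, ∀ t ∈ T, s + t ∈ U) : Supp U (a * b) := by
  intro t ht
  rw [coeff_mul'] at ht
  obtain ⟨r, -, hr⟩ := Finset.exists_ne_zero_of_sum_ne_zero ht
  have h1 := ha r (left_ne_zero_of_mul hr)
  have h2 := hb _ (right_ne_zero_of_mul hr)
  have := hU _ h1 _ h2
  rwa [add_sub_cancel] at this

theorem Supp.add {S : Set ℚ} {a b : A} (ha : Supp S a) (hb : Supp S b) : Supp S (a + b) := by
  intro t ht
  by_cases h : a.coeff t = 0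
  · refine hb t fun h' => ht ?_
    simp [h, h']
  · exact ha t h

theorem Supp.smul {S : Set ℚ} {a : A} (ha : Supp S a) (c : ℝ) : Supp S (c • a) := by
  intro t ht
  refine ha t fun h => ht ?_
  simp [h]

theorem Supp.zero (S : Set ℚ) : Supp S (0 : A) := by
  intro t ht
  simp at ht

theorem Supp.single {S : Set ℚ} {r : ℚ} (hr : r ∈ S) : Supp S (single r (1 : ℝ) : A) := by
  intro t ht
  by_cases h : r = t
  · exact h ▸ hr
  · simp [h] at ht

theorem Supp.one {S : Set ℚ} (hr : (0 : ℚ) ∈ S) : Supp S (1 : A) := Supp.single hr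

theorem Supp.sum {S : Set ℚ} {ι : Type} (s : Finset ι) {a : ι → A} (ha : ∀ i ∈ s, Supp S (a i)) :
    Supp S (∑ i ∈ s, a i) := by
  classical
  induction s using Finset.induction_on with
  | empty => simpa using Supp.zero S
  | insert i s hi ih =>
    rw [Finset.sum_insert hi]
    exact (ha i (Finset.mem_insert_self _ _)).add
      (ih fun j hj => ha j (Finset.mem_insert_of_mem hj))

theorem Supp.pow_Ici {σ : ℚ} {a : A} (ha : Supp (Set.Ici σ) a) (m : ℕ) :
    Supp (Set.Ici (m * σ)) (a ^ m) := by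
  induction m with
  | zero => simpa using Supp.one (S := Set.Ici 0) (by simp)
  | succ m ih =>
    rw [pow_succ]
    refine ih.mul ha fun s hs t ht => ?_
    simp only [Set.mem_Ici] at *
    push_cast
    linarith

theorem Supp.pow_sub {H : AddSubgroup ℚ} {a : A} (ha : Supp H a) (m : ℕ) : Supp H (a ^ m) := by
  induction m with
  | zero => simpa using Supp.one (S := H) H.zero_mem
  | succ m ih =>
    rw [pow_succ]
    exact ih.mul ha fun s hs t ht => H.add_mem hs ht

theorem Supp.mul_sub {H : AddSubgroup ℚ} {a b : A} (ha : Supp H a) (hb : Supp H b) :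
    Supp H (a * b) := ha.mul hb fun _ hs _ ht => H.add_mem hs ht

theorem Supp.coeff_eq_zero {σ t : ℚ} {a : A} (ha : Supp (Set.Ici σ) a) (ht : t < σ) :
    a.coeff t = 0 := by
  by_contra h
  exact absurd (ha t h) (not_le.2 ht)

theorem Bd.mul {σ R : ℚ} {c d : ℝ} {a h : A} (ha : Supp (Set.Ici σ) a) (hn : NB d a)
    (hh : Bd c R h) (hc : 0 ≤ c) : Bd (d * c) (R + σ) (a * h) := by
  intro t ht
  rw [coeff_mul']
  calc |∑ r ∈ a.coeff.support, a.coeff r * h.coeff (t - r)|
      ≤ ∑ r ∈ a.coeff.support, |a.coeff r * h.coeff (t - r)| := Finset.abs_sum_le_sum_abs _ _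
    _ ≤ ∑ r ∈ a.coeff.support, |a.coeff r| * c := by
        refine Finset.sum_le_sum fun r hr => ?_
        rw [abs_mul]
        have h1 : σ ≤ r := ha r (Finsupp.mem_support_iff.1 hr)
        exact mul_le_mul_of_nonneg_left (hh _ (by linarith)) (abs_nonneg _)
    _ = (∑ r ∈ a.coeff.support, |a.coeff r|) * c := by rw [Finset.sum_mul]
    _ ≤ d * c := mul_le_mul_of_nonneg_right (hn _) hc

theorem Bd.mono {R R' : ℚ} {c c' : ℝ} {h : A} (hh : Bd c R h) (hR : R' ≤ R) (hc : c ≤ c') :
    Bd c' R' h := fun t ht => (hh t (ht.trans hR)).trans hc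

theorem Bd.smul {R : ℚ} {c : ℝ} {h : A} (hh : Bd c R h) (d : ℝ) : Bd (|d| * c) R (d • h) := by
  intro t ht
  simp only [AddMonoidAlgebra.coeff_smul, Finsupp.smul_apply, smul_eq_mul, abs_mul]
  exact mul_le_mul_of_nonneg_left (hh t ht) (abs_nonneg _)

theorem NB.add {c d : ℝ} {a b : A} (ha : NB c a) (hb : NB d b) : NB (c + d) (a + b) := by
  intro s
  calc ∑ t ∈ s, |(a + b).coeff t| ≤ ∑ t ∈ s, (|a.coeff t| + |b.coeff t|) := by
        refine Finset.sum_le_sum fun t _ => ?_
        simpa using abs_add_le (a.coeff t) (b.coeff t)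
    _ ≤ c + d := by
        rw [Finset.sum_add_distrib]
        exact add_le_add (ha s) (hb s)

theorem NB.smul {c : ℝ} {a : A} (ha : NB c a) (d : ℝ) : NB (|d| * c) (d • a) := by
  intro s
  simp only [AddMonoidAlgebra.coeff_smul, Finsupp.smul_apply, smul_eq_mul, abs_mul]
  rw [← Finset.mul_sum]
  exact mul_le_mul_of_nonneg_left (ha s) (abs_nonneg _)

theorem NB.single (r : ℚ) : NB 1 (single r (1 : ℝ) : A) := by
  intro s
  have : ∀ t, |(AddMonoidAlgebra.single r (1 : ℝ) : A).coeff t| = if r = t then 1 else 0 := by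
    intro t
    by_cases h : r = t <;> simp [h]
  simp only [this]
  rw [Finset.sum_ite_eq]
  split_ifs <;> norm_num

theorem NB.zero : NB 0 (0 : A) := by
  intro s
  simp

theorem NB.mono {c d : ℝ} {a : A} (ha : NB c a) (h : c ≤ d) : NB d a := fun s => (ha s).trans h

theorem abs_sum_le_of_unique {ι : Type} (s : Finset ι) (g : ι → ℝ)
    (hu : ∀ k ∈ s, ∀ l ∈ s, g k ≠ 0 → g l ≠ 0 → k = l) (hb : ∀ k ∈ s, |g k| ≤ 1) :
    |∑ k ∈ s, g k| ≤ 1 := by
  by_cases h : ∃ k ∈ s, g k ≠ 0
  · obtain ⟨k, hk, hg⟩ := h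
    rw [Finset.sum_eq_single_of_mem k hk]
    · exact hb k hk
    · intro l hl hlk
      by_contra h'
      exact hlk (hu l hl k hk h' hg)
  · push Not at h
    rw [Finset.sum_eq_zero h]
    simp

theorem bd_fresh (H : AddSubgroup ℚ) (r : ℚ) (n : ℕ)
    (hfresh : ∀ i : ℕ, 0 < i → i < n → (i : ℚ) * r ∉ H) (a : ℕ → A) (ha : ∀ k, Supp H (a k))
    (t₀ t : ℚ) (hb : ∀ k < n, |(a k).coeff (t - (t₀ - k * r))| ≤ 1) :
    |(∑ k ∈ Finset.range n, (single (t₀ - k * r) (1 : ℝ) : A) * a k).coeff t| ≤ 1 := by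
  rw [AddMonoidAlgebra.coeff_sum, Finsupp.finsetSum_apply]
  simp only [coeff_single_mul']
  refine abs_sum_le_of_unique _ _ ?_ fun k hk => hb k (Finset.mem_range.1 hk)
  have key : ∀ k l : ℕ, k < l → l < n → t - (t₀ - k * r) ∈ H → t - (t₀ - l * r) ∈ H → False := by
    intro k l hkl hl h1 h2
    refine hfresh (l - k) (by omega) (by omega) ?_
    have := H.sub_mem h2 h1
    rw [Nat.cast_sub hkl.le]
    convert this using 1
    ring
  intro k hk l hl h1 h2
  have h1' := ha k _ h1
  have h2' := ha l _ h2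
  rcases lt_trichotomy k l with h | h | h
  · exact (key k l h (Finset.mem_range.1 hl) h1' h2').elim
  · exact h
  · exact (key l k h (Finset.mem_range.1 hk) h2' h1').elim

theorem exists_fresh (s : Finset ℚ) (τ : ℚ) (hτ : 0 < τ) (n : ℕ) :
    ∃ (H : AddSubgroup ℚ) (r : ℚ), (∀ t ∈ s, t ∈ H) ∧ τ < r ∧ r ≤ 2 * τ ∧
      ∀ i : ℕ, 0 < i → i < n → (i : ℚ) * r ∉ H := by
  classical
  set N : ℕ := ∏ t ∈ insert τ s, t.den with hN
  have hNpos : 0 < N := Finset.prod_pos fun t _ => t.den_pos
  have hNq : (0 : ℚ) < N := by exact_mod_cast hNpos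
  let H : AddSubgroup ℚ :=
    { carrier := {t | ∃ k : ℤ, t * N = k}
      zero_mem' := ⟨0, by simp⟩
      add_mem' := by
        rintro a b ⟨k, hk⟩ ⟨l, hl⟩
        exact ⟨k + l, by push_cast; rw [add_mul, hk, hl]⟩
      neg_mem' := by
        rintro a ⟨k, hk⟩
        exact ⟨-k, by push_cast; rw [neg_mul, hk]⟩ }
  have hmem : ∀ t ∈ insert τ s, t ∈ H := by
    intro t ht
    obtain ⟨c, hc⟩ : t.den ∣ N := Finset.dvd_prod_of_mem _ ht
    refine ⟨t.num * c, ?_⟩
    rw [hc]
    push_cast
    rw [← mul_assoc, Rat.mul_den_eq_num]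
  have hn1 : (0 : ℚ) < n + 1 := by positivity
  refine ⟨H, τ + 1 / (N * (n + 1)), fun t ht => hmem t (Finset.mem_insert_of_mem ht), ?_, ?_, ?_⟩
  · have : (0 : ℚ) < 1 / (N * (n + 1)) := by positivity
    linarith
  · obtain ⟨k, hk⟩ := hmem τ (Finset.mem_insert_self _ _)
    have hk0 : (0 : ℚ) < k := by rw [← hk]; positivity
    have hk1 : (1 : ℚ) ≤ k := by
      have : 0 < k := by exact_mod_cast hk0
      exact_mod_cast this
    have h1 : 1 / ((N : ℚ) * (n + 1)) ≤ τ := by
      rw [div_le_iff₀ (by positivity)]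
      have h2 : (0 : ℚ) ≤ n := by positivity
      calc (1 : ℚ) ≤ k := hk1
        _ ≤ k * (n + 1) := by nlinarith
        _ = τ * (N * (n + 1)) := by rw [← hk]; ring
    linarith
  · intro i hi hin hmemi
    obtain ⟨k, hk⟩ := hmem τ (Finset.mem_insert_self _ _)
    obtain ⟨l, hl⟩ := hmemi
    have h1 : (i : ℚ) = (l - i * k) * (n + 1) := by
      rw [← hl, ← hk]
      field_simp
      ring
    have h2 : (i : ℤ) = (l - i * k) * (n + 1) := by exact_mod_cast h1
    have h3 : ((n : ℤ) + 1) ∣ i := ⟨l - i * k, by rw [mul_comm]; exact h2⟩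
    have h4 := Int.le_of_dvd (by exact_mod_cast hi) h3
    omega

/-- The inner induction: adding fresh generators one at a time. -/
theorem inner (u ψ : A) (τ R : ℚ) (M : ℕ) (hτ : 0 < τ) (hM : R < (M + 1) * (2 * τ))
    (hu : Supp (Set.Ici (4 * τ)) u) (hψ : Supp (Set.Ici 0) ψ) (hψ0 : ψ.coeff 0 = 1)
    (hb : ∀ m : ℕ, Bd 1 (R + m * (2 * τ)) (u ^ m * ψ)) (n : ℕ) :
    ∃ G P : A, (∀ t, 0 ≤ G.coeff t) ∧ Supp (Set.Ioc τ (2 * τ)) G ∧ NB n G ∧
      (0 < n → ∃ t, G.coeff t ≠ 0) ∧ Supp (Set.Ici 0) P ∧ P.coeff 0 = 1 ∧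
      (∀ m : ℕ, Bd 1 (R + m * (2 * τ)) (u ^ m * P)) ∧
      (∀ m : ℕ, Bd 1 (R + m * (2 * τ)) (u ^ m * ((G - (n : A) * u) * P))) := by
  classical
  induction n with
  | zero =>
    refine ⟨0, ψ, by simp, Supp.zero _, by simpa using NB.zero, by simp, hψ, hψ0, hb, ?_⟩
    intro m t _
    simp
  | succ n ih =>
    obtain ⟨G, P, hG0, hGs, hGn, -, hPs, hP0, hPb, hEb⟩ := ih
    set E : A := (G - (n : A) * u) * P with hE
    obtain ⟨H, r, hH, hr1, hr2, hfresh⟩ := exists_fresh
      (u.coeff.support ∪ P.coeff.support ∪ E.coeff.support) τ hτ (M + 2)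
    have huH : Supp H u := fun t ht => hH t (by simp [ht])
    have hPH : Supp H P := fun t ht => hH t (by simp [ht])
    have hEH : Supp H E := fun t ht => hH t (by simp [ht])
    set x : A := single r 1 with hx
    set y : A := single (-r) 1 with hy
    have hxy : x * y = 1 := by
      rw [hx, hy, AddMonoidAlgebra.single_mul_single]
      simp [AddMonoidAlgebra.one_def]
    have hyk : ∀ k : ℕ, y ^ k = single (0 - k * r) 1 := by
      intro k
      rw [hy, AddMonoidAlgebra.single_pow]
      simp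
    have hys : Supp (Set.Ici (-r)) y := Supp.single (by simp)
    have hws : Supp (Set.Ici (2 * τ)) (u * y) := by
      refine hu.mul hys fun s hs t ht => ?_
      simp only [Set.mem_Ici] at *
      linarith
    set S : A := ∑ k ∈ Finset.range (M + 1), (u * y) ^ k with hS
    have hSs : Supp (Set.Ici 0) S := by
      refine Supp.sum _ fun k _ => (hws.pow_Ici k).mono fun t ht => ?_
      simp only [Set.mem_Ici] at *
      have : (0 : ℚ) ≤ k * (2 * τ) := by positivity
      linarith
    have hgeom : (x - u) * S = x - x * (u * y) ^ (M + 1) := by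
      have h1 : x - u = x * (1 - u * y) := by
        rw [mul_sub, mul_one, mul_comm u y, ← mul_assoc, hxy, one_mul]
      rw [h1, mul_assoc, hS, mul_neg_geom_sum]
      ring
    refine ⟨G + x, S * P, ?_, ?_, ?_, ?_, ?_, ?_, ?_, ?_⟩
    · intro t
      have h1 : 0 ≤ x.coeff t := by
        by_cases h : r = t <;> simp [hx, h]
      simpa using add_nonneg (hG0 t) h1
    · exact hGs.add (Supp.single ⟨hr1, hr2⟩)
    · push_cast
      exact hGn.add (NB.single r)
    · intro _
      refine ⟨r, ?_⟩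
      have h1 : x.coeff r = 1 := by simp [hx]
      have h2 := hG0 r
      simp only [AddMonoidAlgebra.coeff_add, Finsupp.add_apply, h1]
      linarith
    · refine hSs.mul hPs fun s hs t ht => ?_
      simp only [Set.mem_Ici] at *
      linarith
    · have h1 : S * P = P + (∑ k ∈ Finset.range M, (u * y) ^ (k + 1)) * P := by
        rw [hS, Finset.sum_range_succ']
        ring
      have h2 : Supp (Set.Ici (2 * τ)) ((∑ k ∈ Finset.range M, (u * y) ^ (k + 1)) * P) := by
        refine Supp.mul (S := Set.Ici (2 * τ)) ?_ hPs fun s hs t ht => ?_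
        · refine Supp.sum _ fun k _ => (hws.pow_Ici (k + 1)).mono fun t ht => ?_
          simp only [Set.mem_Ici] at *
          push_cast at ht
          have : (0 : ℚ) ≤ k * (2 * τ) := by positivity
          linarith
        · simp only [Set.mem_Ici] at *
          linarith
      rw [h1]
      simp only [AddMonoidAlgebra.coeff_add, Finsupp.add_apply, hP0]
      rw [h2.coeff_eq_zero (by linarith), add_zero]
    · intro m t ht
      have h1 : u ^ m * (S * P) = ∑ k ∈ Finset.range (M + 1),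
          (single (0 - k * r) (1 : ℝ) : A) * (u ^ (m + k) * P) := by
        rw [hS, Finset.sum_mul, Finset.mul_sum]
        refine Finset.sum_congr rfl fun k _ => ?_
        rw [← hyk]
        ring
      rw [h1]
      refine bd_fresh H r (M + 1) (fun i hi hin => hfresh i hi (by omega)) _
        (fun k => (huH.pow_sub _).mul_sub hPH) 0 t fun k _ => hPb (m + k) _ ?_
      push_cast
      have : (k : ℚ) * r ≤ k * (2 * τ) := mul_le_mul_of_nonneg_left hr2 (by positivity)
      linarith
    · intro m t ht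
      let a : ℕ → A := fun k => match k with
        | 0 => u ^ m * P
        | k + 1 => u ^ (m + k) * E
      have h1 : u ^ m * ((G + x - ((n + 1 : ℕ) : A) * u) * (S * P)) =
          (∑ k ∈ Finset.range (M + 2), (single (r - k * r) (1 : ℝ) : A) * a k) -
            u ^ m * (x * (u * y) ^ (M + 1)) * P := by
        have h2 : ∑ k ∈ Finset.range (M + 2), (single (r - k * r) (1 : ℝ) : A) * a k =
            u ^ m * S * E + x * (u ^ m * P) := by
          rw [Finset.sum_range_succ']
          congr 1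
          · rw [hS, Finset.mul_sum, Finset.sum_mul]
            refine Finset.sum_congr rfl fun k _ => ?_
            have h3 : r - ((k + 1 : ℕ) : ℚ) * r = 0 - k * r := by push_cast; ring
            rw [h3, ← hyk]
            simp only [a]
            ring
          · simp [a, hx]
        rw [h2, hE]
        push_cast
        linear_combination (u ^ m * P) * hgeom
      have h4 : Supp (Set.Ici (m * (4 * τ) + (M + 1) * (2 * τ)))
          (u ^ m * (x * (u * y) ^ (M + 1)) * P) := by
        refine Supp.mul (S := Set.Ici (m * (4 * τ) + (M + 1) * (2 * τ))) ?_ hPs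
          fun s hs t ht => ?_
        · refine Supp.mul (T := Set.Ici ((M + 1) * (2 * τ))) (hu.pow_Ici m) ?_
            fun s hs t ht => ?_
          · refine Supp.mul (S := Set.Ici 0) (Supp.single ?_) (hws.pow_Ici (M + 1))
              fun s hs t ht => ?_
            · simp only [Set.mem_Ici]
              linarith
            · simp only [Set.mem_Ici] at *
              push_cast at ht
              linarith
          · simp only [Set.mem_Ici] at *
            linarith
        · simp only [Set.mem_Ici] at *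
          linarith
      rw [h1]
      simp only [AddMonoidAlgebra.coeff_sub, Finsupp.sub_apply]
      have h5 : (0 : ℚ) ≤ m * (2 * τ) := by positivity
      rw [h4.coeff_eq_zero (by linarith), sub_zero]
      refine bd_fresh H r (M + 2) hfresh a ?_ r t ?_
      · intro k
        rcases k with _ | k
        · exact (huH.pow_sub _).mul_sub hPH
        · exact (huH.pow_sub _).mul_sub hEH
      · intro k _
        rcases k with _ | k
        · refine hPb m _ ?_
          push_cast
          linarith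
        · refine hEb (m + k) _ ?_
          push_cast
          have : (k : ℚ) * r ≤ k * (2 * τ) := mul_le_mul_of_nonneg_left hr2 (by positivity)
          linarith

/-- The invariant of the outer recursion. -/
structure Inv (j : ℕ) (f ψ : A) : Prop where
  fs : Supp (Set.Ici (1 / 4 ^ j)) f
  fn : NB (1 - 1 / 2 ^ j) f
  ps : Supp (Set.Ici 0) ψ
  p0 : ψ.coeff 0 = 1
  pb : Bd 1 (1 + 1 / 4 ^ j) ψ
  eb : Bd ((1 / 2 ^ (j + 1)) ^ (4 ^ (j + 1))) (1 + 1 / 4 ^ j) (f * ψ)

theorem inv_zero : Inv 0 0 1 := by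
  refine ⟨Supp.zero _, by simpa using NB.zero, Supp.one (by simp), by simp, ?_, ?_⟩
  · intro t _
    by_cases h : (0 : ℚ) = t <;> simp [AddMonoidAlgebra.one_def, h]
  · intro t _
    simp

theorem step (j : ℕ) (f ψ : A) (h : Inv j f ψ) :
    ∃ g ψ' : A, ((∀ t, 0 ≤ g.coeff t) ∧ Supp (Set.Ioc (1 / 4 ^ (j + 1)) (2 * (1 / 4 ^ (j + 1)))) g ∧
      (∃ t, g.coeff t ≠ 0)) ∧ Inv (j + 1) (f + g) ψ' := by
  set τ : ℚ := 1 / 4 ^ (j + 1) with hτdef
  have hτ : 0 < τ := by positivity
  have h4τ : (1 / 4 ^ j : ℚ) = 4 * τ := by rw [hτdef, pow_succ]; field_simp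
  have hτ1 : τ ≤ 1 := by
    rw [hτdef, div_le_one (by positivity)]
    exact one_le_pow₀ (by norm_num)
  set M : ℕ := 4 ^ (j + 1) with hMdef
  have hMτ : (M : ℚ) * τ = 1 := by rw [hMdef, hτdef]; push_cast; field_simp
  set b : ℝ := 1 / 2 ^ (j + 1) with hbdef
  have hb : 0 < b := by positivity
  have hb1 : b ≤ 1 := by
    rw [hbdef, div_le_one (by positivity)]
    exact one_le_pow₀ (by norm_num)
  set u : A := (-b⁻¹) • f with hudef
  have hfs := h.fs
  have hpb := h.pb
  have heb := h.eb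
  rw [h4τ] at hfs hpb heb
  have hus : Supp (Set.Ici (4 * τ)) u := hfs.smul _
  have hfn : NB 1 f := h.fn.mono (by
    have : (0 : ℝ) < 1 / 2 ^ j := by positivity
    linarith)
  have hun : NB b⁻¹ u := by
    have := hfn.smul (-b⁻¹)
    rwa [abs_neg, abs_of_pos (inv_pos.2 hb), mul_one] at this
  have hpow : ∀ m : ℕ, Bd (b⁻¹ ^ (m + 1) * b ^ M) (1 + 4 * τ + m * (4 * τ)) (u ^ (m + 1) * ψ) := by
    intro m
    induction m with
    | zero =>
      have h1 := heb.smul (-b⁻¹)
      rw [abs_neg, abs_of_pos (inv_pos.2 hb)] at h1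
      have h2 : u ^ (0 + 1) * ψ = (-b⁻¹) • (f * ψ) := by
        rw [zero_add, pow_one, hudef, smul_mul_assoc]
      rw [h2]
      refine h1.mono (le_of_eq ?_) (le_of_eq ?_)
      · push_cast; ring
      · rw [zero_add, pow_one]
    | succ m ih =>
      have h1 := Bd.mul hus hun ih (by positivity)
      have h2 : u ^ (m + 1 + 1) * ψ = u * (u ^ (m + 1) * ψ) := by ring
      rw [h2]
      refine h1.mono (le_of_eq ?_) (le_of_eq ?_)
      · push_cast; ring
      · ring
  have hbase : ∀ m : ℕ, Bd 1 (1 + τ + m * (2 * τ)) (u ^ m * ψ) := by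
    intro m
    rcases m with _ | m
    · rw [pow_zero, one_mul]
      refine hpb.mono ?_ le_rfl
      push_cast
      linarith
    · by_cases hm : m + 1 ≤ M
      · refine (hpow m).mono ?_ ?_
        · push_cast
          have : (0 : ℚ) ≤ m * τ := by positivity
          linarith
        · obtain ⟨k, hk⟩ := Nat.exists_eq_add_of_le hm
          rw [hk, pow_add b (m + 1) k, ← mul_assoc, ← mul_pow, inv_mul_cancel₀ hb.ne', one_pow,
            one_mul]
          exact pow_le_one₀ hb.le hb1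
      · intro t ht
        have h1 : Supp (Set.Ici (((m + 1 : ℕ) : ℚ) * (4 * τ))) (u ^ (m + 1) * ψ) := by
          refine (hus.pow_Ici (m + 1)).mul h.ps fun s hs t ht => ?_
          simp only [Set.mem_Ici] at *
          linarith
        have h2 : (M : ℚ) + 1 ≤ ((m + 1 : ℕ) : ℚ) := by
          have : M + 1 ≤ m + 1 := by omega
          exact_mod_cast this
        have h3 : ((M : ℚ) + 1) * τ ≤ ((m + 1 : ℕ) : ℚ) * τ := mul_le_mul_of_nonneg_right h2 hτ.le
        rw [h1.coeff_eq_zero (by nlinarith)]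
        simp
  set ε : ℝ := (1 / 2 ^ (j + 1 + 1)) ^ (4 ^ (j + 1 + 1)) with hε
  have hεpos : 0 < ε := by positivity
  obtain ⟨n, hn⟩ := exists_nat_gt (b / ε)
  have hn0 : (0 : ℝ) < n := lt_trans (div_pos hb hεpos) hn
  have hn0' : 0 < n := by exact_mod_cast hn0
  obtain ⟨G, P, hG0, hGs, hGn, hGne, hPs, hP0, hPb, hEb⟩ :=
    inner u ψ τ (1 + τ) M hτ (by nlinarith) hus h.ps h.p0 hbase n
  have hc : 0 < b / n := div_pos hb hn0
  refine ⟨(b / n) • G, P, ⟨?_, hGs.smul _, ?_⟩, ?_, ?_, hPs, hP0, ?_, ?_⟩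
  · intro t
    simpa using mul_nonneg hc.le (hG0 t)
  · obtain ⟨t, ht⟩ := hGne hn0'
    refine ⟨t, ?_⟩
    simp only [AddMonoidAlgebra.coeff_smul, Finsupp.smul_apply, smul_eq_mul]
    exact mul_ne_zero hc.ne' ht
  · refine (hfs.mono fun t ht => ?_).add ((hGs.smul _).mono fun t ht => ht.1.le)
    simp only [Set.mem_Ici] at *
    linarith
  · have h1 := h.fn.add (hGn.smul (b / n))
    refine h1.mono (le_of_eq ?_)
    rw [abs_of_pos hc, div_mul_cancel₀ _ hn0.ne', hbdef, pow_succ]
    field_simp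
    ring
  · have h1 := hPb 0
    rw [pow_zero, one_mul] at h1
    refine h1.mono (le_of_eq ?_) le_rfl
    rw [Nat.cast_zero, zero_mul, add_zero]
  · have h1 := (hEb 0).smul (b / n)
    have h2 : (f + (b / n) • G) * P = (b / n) • (u ^ 0 * ((G - (n : A) * u) * P)) := by
      rw [pow_zero, one_mul, ← smul_mul_assoc, smul_sub]
      congr 1
      have h3 : (n : A) * u = (n : ℝ) • u := by
        rw [← nsmul_eq_mul, Nat.cast_smul_eq_nsmul]
      rw [h3, hudef, smul_smul, smul_smul]
      have h4 : b / n * n * -b⁻¹ = -1 := by field_simp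
      rw [h4]
      simp [add_comm]
    rw [h2]
    refine h1.mono (le_of_eq (by rw [Nat.cast_zero, zero_mul, add_zero])) ?_
    rw [abs_of_pos hc, mul_one, div_le_iff₀ hn0]
    rw [div_lt_iff₀ hεpos] at hn
    linarith

end Pool.Agent.H67Z.Titch
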