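import Pool.Agent.H67Z.TitchLim

set_option autoImplicit false

namespace Pool.Agent.H67Z.Titch

open Filter Topology

section
variable {N : ℚ → Prop} {ω : ℚ → ℝ}

theorem conv_summable (hNadd : ∀ s t, N (s + t) → N s ∨ N t)
    (hpos : ∀ q, ¬ N q → 0 < ω q) (hsub : ∀ s t, ¬ N s → ¬ N t → ω (s + t) ≤ ω s * ω t)
    {a g : ℚ → ℂ} (ha0 : ∀ q, N q → a q = 0) (ha : Summable fun q => ‖a q‖ * ω q)
    (hg0 : ∀ q, N q → g q = 0) (hg : Summable fun q => ‖g q‖ * ω q) :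
    Summable (fun p : ℚ × ℚ => ‖a p.2 * g (p.1 - p.2)‖ * ω p.1) ∧
      ∀ p : ℚ × ℚ, 0 ≤ ‖a p.2 * g (p.1 - p.2)‖ * ω p.1 := by
  have hnn : ∀ {f : ℚ → ℂ}, (∀ q, N q → f q = 0) → ∀ q, 0 ≤ ‖f q‖ * ω q := by
    intro f hf q
    by_cases h : N q
    · simp [hf q h]
    · exact mul_nonneg (norm_nonneg _) (hpos q h).le
  have h1 : Summable fun p : ℚ × ℚ => (‖a p.1‖ * ω p.1) * (‖g p.2‖ * ω p.2) :=
    Summable.mul_of_nonneg ha hg (hnn ha0) (hnn hg0)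
  let e : ℚ × ℚ ≃ ℚ × ℚ :=
    { toFun := fun p => (p.2, p.1 - p.2)
      invFun := fun p => (p.1 + p.2, p.1)
      left_inv := fun p => by simp
      right_inv := fun p => by simp }
  have h2 : Summable fun p : ℚ × ℚ => (‖a p.2‖ * ω p.2) * (‖g (p.1 - p.2)‖ * ω (p.1 - p.2)) :=
    (e.summable_iff.2 h1)
  have key : ∀ p : ℚ × ℚ, 0 ≤ ‖a p.2 * g (p.1 - p.2)‖ * ω p.1 ∧
      ‖a p.2 * g (p.1 - p.2)‖ * ω p.1 ≤
        (‖a p.2‖ * ω p.2) * (‖g (p.1 - p.2)‖ * ω (p.1 - p.2)) := by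
    rintro ⟨t, s⟩
    by_cases h3 : N s
    · simp [ha0 s h3]
    by_cases h4 : N (t - s)
    · simp [hg0 _ h4]
    have h5 : ¬ N t := fun h => by
      have := hNadd s (t - s) (by rwa [add_sub_cancel])
      tauto
    have h6 := hsub s (t - s) h3 h4
    rw [add_sub_cancel] at h6
    refine ⟨mul_nonneg (norm_nonneg _) (hpos t h5).le, ?_⟩
    simp only [norm_mul]
    calc ‖a s‖ * ‖g (t - s)‖ * ω t ≤ ‖a s‖ * ‖g (t - s)‖ * (ω s * ω (t - s)) :=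
          mul_le_mul_of_nonneg_left h6 (by positivity)
      _ = _ := by ring
  exact ⟨Summable.of_nonneg_of_le (fun p => (key p).1) (fun p => (key p).2) h2,
    fun p => (key p).1⟩

theorem exists_ideal (hN0 : ∀ q, q < 0 → N q) (hN1 : ∀ q, N q → q ≤ 0)
    (hNadd : ∀ s t, N (s + t) → N s ∨ N t)
    (hpos : ∀ q, ¬ N q → 0 < ω q) (hsub : ∀ s t, ¬ N s → ¬ N t → ω (s + t) ≤ ω s * ω t)
    {C c : ℝ} (hC : ∀ q, 0 < q → q ≤ 1 → ω q ≤ C) (hc0 : 0 < c)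
    (hc : ∀ q, ¬ N q → q ≤ 1 → c ≤ ω q) :
    ∃ I : Set (ℚ → ℂ),
      (∀ f ∈ I, (∀ q : ℚ, N q → f q = 0) ∧ Summable (fun q : ℚ => ‖f q‖ * ω q)) ∧
      (0 : ℚ → ℂ) ∈ I ∧
      (∀ f ∈ I, ∀ g ∈ I, f + g ∈ I) ∧
      (∀ c : ℂ, ∀ f ∈ I, c • f ∈ I) ∧
      (∀ a : ℚ → ℂ, (∀ q : ℚ, N q → a q = 0) →
         Summable (fun q : ℚ => ‖a q‖ * ω q) →
         ∀ f ∈ I, (fun t : ℚ => ∑' s : ℚ, a s * f (t - s)) ∈ I) ∧
      (∀ f : ℚ → ℂ, (∀ q : ℚ, N q → f q = 0) →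
         Summable (fun q : ℚ => ‖f q‖ * ω q) →
         (∀ ε : ℝ, 0 < ε → ∃ g ∈ I, ∑' q : ℚ, ‖f q - g q‖ * ω q < ε) → f ∈ I) ∧
      (∃ f ∈ I, ∀ ε : ℝ, 0 < ε → ∃ q : ℚ, (q : ℝ) < ε ∧ f q ≠ 0) ∧
      (Pi.single 1 1 : ℚ → ℂ) ∉ I := by
  obtain ⟨F, φ, hFs, hF0, hFsupp, hFinf, hφb, hφ0, hφ1, hFφ⟩ := titchmarsh_fails
  have hnn : ∀ {f : ℚ → ℂ}, (∀ q, N q → f q = 0) → ∀ q, 0 ≤ ‖f q‖ * ω q := by
    intro f hf q
    by_cases h : N q
    · simp [hf q h]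
    · exact mul_nonneg (norm_nonneg _) (hpos q h).le
  have hφω : ∀ r s : ℚ, ¬ N r → 0 ≤ s → ‖(φ (r + s) : ℂ)‖ ≤ c⁻¹ * ω r := by
    intro r s hr hs
    rw [Complex.norm_real, Real.norm_eq_abs]
    by_cases h : r ≤ 1
    · refine (hφb _).trans ?_
      rw [← div_eq_inv_mul, le_div_iff₀ hc0, one_mul]
      exact hc r hr h
    · rw [hφ0 _ (by linarith), abs_zero]
      exact mul_nonneg (inv_pos.2 hc0).le (hpos r hr).le
  have hbound : ∀ {f : ℚ → ℂ}, (∀ q, N q → f q = 0) → ∀ s : ℚ, 0 ≤ s → ∀ r,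
      ‖f r * (φ (r + s) : ℂ)‖ ≤ c⁻¹ * (‖f r‖ * ω r) := by
    intro f hf s hs r
    by_cases h : N r
    · simp [hf r h]
    · rw [norm_mul]
      calc ‖f r‖ * ‖(φ (r + s) : ℂ)‖ ≤ ‖f r‖ * (c⁻¹ * ω r) :=
            mul_le_mul_of_nonneg_left (hφω r s h hs) (norm_nonneg _)
        _ = _ := by ring
  have hsumm : ∀ {f : ℚ → ℂ}, (∀ q, N q → f q = 0) → Summable (fun q : ℚ => ‖f q‖ * ω q) →
      ∀ s : ℚ, 0 ≤ s → Summable fun r => f r * (φ (r + s) : ℂ) := by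
    intro f hf hf' s hs
    exact Summable.of_norm_bounded (hf'.mul_left c⁻¹) (hbound hf s hs)
  have hadd : ∀ {f g : ℚ → ℂ}, (∀ q, N q → f q = 0) → Summable (fun q : ℚ => ‖f q‖ * ω q) →
      (∀ q, N q → g q = 0) → Summable (fun q : ℚ => ‖g q‖ * ω q) → ∀ k : ℚ → ℂ,
      (∀ q, ‖k q‖ ≤ ‖f q‖ + ‖g q‖) → Summable (fun q : ℚ => ‖k q‖ * ω q) := by
    intro f g hf hf' hg hg' k hk
    have hk0 : ∀ q, N q → k q = 0 := by
      intro q hq
      have := hk q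
      rw [hf q hq, hg q hq] at this
      simpa using this
    refine Summable.of_nonneg_of_le (hnn hk0) (fun q => ?_) (hf'.add hg')
    by_cases h : N q
    · simp [hk0 q h, hf q h, hg q h]
    · rw [← add_mul]
      exact mul_le_mul_of_nonneg_right (hk q) (hpos q h).le
  refine ⟨{g | (∀ q : ℚ, N q → g q = 0) ∧ Summable (fun q : ℚ => ‖g q‖ * ω q) ∧
    ∀ s : ℚ, 0 ≤ s → ∑' r, g r * (φ (r + s) : ℂ) = 0}, fun f hf => ⟨hf.1, hf.2.1⟩,
    ?_, ?_, ?_, ?_, ?_, ?_, ?_⟩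
  · refine ⟨fun _ _ => rfl, ?_, ?_⟩
    · simp
    · simp
  · rintro f ⟨hf0, hf1, hf2⟩ g ⟨hg0, hg1, hg2⟩
    refine ⟨fun q hq => by simp [hf0 q hq, hg0 q hq],
      hadd hf0 hf1 hg0 hg1 _ (fun q => norm_add_le _ _), fun s hs => ?_⟩
    simp only [Pi.add_apply, add_mul]
    rw [(hsumm hf0 hf1 s hs).tsum_add (hsumm hg0 hg1 s hs), hf2 s hs, hg2 s hs, add_zero]
  · rintro d f ⟨hf0, hf1, hf2⟩
    refine ⟨fun q hq => by simp [hf0 q hq], ?_, fun s hs => ?_⟩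
    · simp only [Pi.smul_apply, smul_eq_mul, norm_mul, mul_assoc]
      exact hf1.mul_left _
    · simp only [Pi.smul_apply, smul_eq_mul, mul_assoc]
      rw [tsum_mul_left, hf2 s hs, mul_zero]
  · rintro a ha0 ha1 g ⟨hg0, hg1, hg2⟩
    obtain ⟨hK, hK0⟩ := conv_summable hNadd hpos hsub ha0 ha1 hg0 hg1
    have hz : ∀ t s, N t → a s * g (t - s) = 0 := by
      intro t s ht
      rcases hNadd s (t - s) (by rwa [add_sub_cancel]) with h | h
      · rw [ha0 s h, zero_mul]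
      · rw [hg0 _ h, mul_zero]
    have h0 : ∀ t, N t → ∑' s, a s * g (t - s) = 0 := by
      intro t ht
      simp [hz t _ ht]
    refine ⟨h0, ?_, fun s₀ hs₀ => ?_⟩
    · refine Summable.of_nonneg_of_le (hnn h0) (fun t => ?_) hK.prod
      by_cases ht : N t
      · simp only
        rw [h0 t ht]
        simp [hz t _ ht]
      · have h1 : Summable fun s => ‖a s * g (t - s)‖ :=
          (summable_mul_right_iff (hpos t ht).ne').1 (hK.prod_factor t)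
        simp only
        rw [tsum_mul_right]
        exact mul_le_mul_of_nonneg_right (norm_tsum_le_tsum_norm h1) (hpos t ht).le
    · have h1 : Summable (Function.uncurry fun r s => a s * g (r - s) * (φ (r + s₀) : ℂ)) := by
        refine Summable.of_norm_bounded (hK.mul_left c⁻¹) ?_
        rintro ⟨r, s⟩
        exact hbound (f := fun r => a s * g (r - s)) (fun r hr => hz r s hr) s₀ hs₀ r
      simp only [← tsum_mul_right]
      rw [← h1.tsum_comm]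
      refine (tsum_congr fun s => ?_).trans tsum_zero
      by_cases hs : N s
      · simp [ha0 s hs]
      · have hs' : 0 ≤ s := not_lt.1 fun h => hs (hN0 s h)
        simp only [mul_assoc]
        rw [tsum_mul_left, ← (Equiv.addRight s).tsum_eq]
        simp only [Equiv.coe_addRight, add_sub_cancel_right, add_assoc]
        rw [hg2 (s + s₀) (add_nonneg hs' hs₀), mul_zero]
  · intro f hf0 hf1 happ
    refine ⟨hf0, hf1, fun s hs => ?_⟩
    rw [← norm_le_zero_iff]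
    refine le_of_forall_pos_le_add fun ε hε => ?_
    obtain ⟨g, ⟨hg0, hg1, hg2⟩, hlt⟩ := happ (c * ε) (mul_pos hc0 hε)
    have hd0 : ∀ q, N q → f q - g q = 0 := fun q hq => by simp [hf0 q hq, hg0 q hq]
    have hd1 : Summable (fun q : ℚ => ‖f q - g q‖ * ω q) :=
      hadd hf0 hf1 hg0 hg1 _ (fun q => norm_sub_le _ _)
    have h1 : ∑' r, f r * (φ (r + s) : ℂ) = ∑' r, (f r - g r) * (φ (r + s) : ℂ) := by
      simp only [sub_mul]
      rw [(hsumm hf0 hf1 s hs).tsum_sub (hsumm hg0 hg1 s hs), hg2 s hs, sub_zero]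
    rw [h1, zero_add]
    refine (tsum_of_norm_bounded (hd1.mul_left c⁻¹).hasSum
      (hbound (f := fun q => f q - g q) hd0 s hs)).trans ?_
    rw [tsum_mul_left, ← div_eq_inv_mul, div_le_iff₀ hc0]
    linarith
  · have hF1 : ∀ q, N q → (F q : ℂ) = 0 := by
      intro q hq
      by_contra h
      have h1 : F q ≠ 0 := fun h' => h (by simp [h'])
      exact absurd (hN1 q hq) (not_le.2 (hFsupp q h1).1)
    refine ⟨fun q => (F q : ℂ), ⟨hF1, ?_, fun s hs => ?_⟩, fun ε hε => ?_⟩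
    · refine Summable.of_nonneg_of_le (hnn hF1) (fun q => ?_) (hFs.mul_right C)
      rw [Complex.norm_real, Real.norm_eq_abs, abs_of_nonneg (hF0 q)]
      by_cases h : F q = 0
      · simp [h]
      · exact mul_le_mul_of_nonneg_left (hC q (hFsupp q h).1 (hFsupp q h).2) (hF0 q)
    · have := hFφ s hs
      simp only [← Complex.ofReal_mul]
      rw [← Complex.ofReal_tsum, this, Complex.ofReal_zero]
    · obtain ⟨q, hq1, hq2⟩ := hFinf ε hε
      exact ⟨q, hq1, Complex.ofReal_ne_zero.2 hq2⟩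
  · rintro ⟨-, -, h⟩
    have h1 := h 0 le_rfl
    rw [tsum_eq_single 1 (fun r hr => by simp [hr])] at h1
    simp [hφ1] at h1

theorem single_summable (ω : ℚ → ℝ) :
    Summable fun q : ℚ => ‖(Pi.single 1 1 : ℚ → ℂ) q‖ * ω q := by
  refine summable_of_ne_finset_zero (s := {1}) fun q hq => ?_
  have : q ≠ 1 := by simpa using hq
  simp [this]

/-- a set containing an element with infimum of the support zero and missing the point mass at
one is not standard -/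
theorem not_standard (hN1 : ∀ q, N q → q ≤ 0) {I : Set (ℚ → ℂ)}
    (h1 : ∃ f ∈ I, ∀ ε : ℝ, 0 < ε → ∃ q : ℚ, (q : ℝ) < ε ∧ f q ≠ 0)
    (h2 : (Pi.single 1 1 : ℚ → ℂ) ∉ I) :
    I ≠ {0} ∧ ∀ α : ℝ, 0 ≤ α →
      I ≠ {f : ℚ → ℂ | (∀ q : ℚ, N q → f q = 0) ∧ Summable (fun q : ℚ => ‖f q‖ * ω q) ∧
        ∀ q : ℚ, (q : ℝ) < α → f q = 0} ∧
      I ≠ {f : ℚ → ℂ | (∀ q : ℚ, N q → f q = 0) ∧ Summable (fun q : ℚ => ‖f q‖ * ω q) ∧
        ∀ q : ℚ, (q : ℝ) ≤ α → f q = 0} := by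
  obtain ⟨f, hf, hinf⟩ := h1
  have hs : ∀ q : ℚ, (q : ℝ) ≤ 0 → (Pi.single 1 1 : ℚ → ℂ) q = 0 := by
    intro q hq
    have : q ≠ 1 := by
      rintro rfl
      norm_num at hq
    simp [this]
  have hs' : ∀ q : ℚ, N q → (Pi.single 1 1 : ℚ → ℂ) q = 0 := fun q hq =>
    hs q (by exact_mod_cast hN1 q hq)
  refine ⟨?_, fun α hα => ⟨?_, ?_⟩⟩
  · rintro rfl
    obtain ⟨q, -, hq⟩ := hinf 1 one_pos
    rw [Set.mem_singleton_iff.1 hf] at hq
    exact hq rfl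
  · rintro rfl
    rcases hα.eq_or_lt with rfl | hα
    · exact h2 ⟨hs', single_summable ω, fun q hq => hs q hq.le⟩
    · obtain ⟨q, hq1, hq⟩ := hinf α hα
      exact hq (hf.2.2 q hq1)
  · rintro rfl
    rcases hα.eq_or_lt with rfl | hα
    · exact h2 ⟨hs', single_summable ω, hs⟩
    · obtain ⟨q, hq1, hq⟩ := hinf α hα
      exact hq (hf.2.2 q hq1.le)

end

/-- a weight bounded near the origin is bounded above on `(0, 2]` -/
theorem bounded_two {ω : ℚ → ℝ} (hpos : ∀ q, 0 < q → 0 < ω q)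
    (hsub : ∀ s t, 0 < s → 0 < t → ω (s + t) ≤ ω s * ω t) {δ : ℚ} {C : ℝ} (hδ : 0 < δ)
    (hC : ∀ q, 0 < q → q ≤ δ → ω q ≤ C) : ∃ D : ℝ, ∀ q, 0 < q → q ≤ 2 → ω q ≤ D := by
  have key : ∀ n : ℕ, ∃ D : ℝ, ∀ q, 0 < q → q ≤ 2 ^ n * δ → ω q ≤ D := by
    intro n
    induction n with
    | zero => exact ⟨C, fun q h1 h2 => hC q h1 (by simpa using h2)⟩
    | succ n ih =>
      obtain ⟨D, hD⟩ := ih
      refine ⟨D * D, fun q h1 h2 => ?_⟩
      have h3 := hsub (q / 2) (q / 2) (by linarith) (by linarith)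
      rw [add_halves] at h3
      have h4 : ω (q / 2) ≤ D := hD _ (by linarith) (by rw [pow_succ] at h2; linarith)
      have h5 := hpos (q / 2) (by linarith)
      exact h3.trans (mul_le_mul h4 h4 h5.le (h5.le.trans h4))
  obtain ⟨n, hn⟩ := pow_unbounded_of_one_lt (2 / δ) (show (1 : ℚ) < 2 by norm_num)
  obtain ⟨D, hD⟩ := key n
  refine ⟨D, fun q h1 h2 => hD q h1 (h2.trans ?_)⟩
  rw [div_lt_iff₀ hδ] at hn
  exact hn.le

theorem bounded_below {ω : ℚ → ℝ} (hpos : ∀ q, 0 < q → 0 < ω q)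
    (hsub : ∀ s t, 0 < s → 0 < t → ω (s + t) ≤ ω s * ω t) {D : ℝ}
    (hD : ∀ q, 0 < q → q ≤ 2 → ω q ≤ D) : 0 < ω 2 / D ∧ ∀ q, 0 < q → q ≤ 1 → ω 2 / D ≤ ω q := by
  have hD0 : 0 < D := (hpos 1 one_pos).trans_le (hD 1 one_pos (by norm_num))
  refine ⟨div_pos (hpos 2 two_pos) hD0, fun q h1 h2 => ?_⟩
  have h3 := hsub q (2 - q) h1 (by linarith)
  rw [add_sub_cancel] at h3
  rw [div_le_iff₀ hD0]
  exact h3.trans (mul_le_mul_of_nonneg_left (hD _ (by linarith) (by linarith)) (hpos q h1).le)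

end Pool.Agent.H67Z.Titch
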