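import Pool.Agent.H67Z.TitchAlg

set_option autoImplicit false

namespace Pool.Agent.H67Z.Titch

open Filter Topology

theorem exists_seq : ∃ f ψ : ℕ → A, (∀ j, Inv j (f j) (ψ j)) ∧ f 0 = 0 ∧
    ∀ j, ∃ g : A, f (j + 1) = f j + g ∧ (∀ t, 0 ≤ g.coeff t) ∧
      Supp (Set.Ioc (1 / 4 ^ (j + 1)) (2 * (1 / 4 ^ (j + 1)))) g ∧ ∃ t, g.coeff t ≠ 0 := by
  choose G Ψ hG hI using step
  let sq : (j : ℕ) → {p : A × A // Inv j p.1 p.2} := fun j =>
    Nat.rec (motive := fun j => {p : A × A // Inv j p.1 p.2}) ⟨(0, 1), inv_zero⟩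
      (fun j p => ⟨(p.1.1 + G j _ _ p.2, Ψ j _ _ p.2), hI j _ _ p.2⟩) j
  refine ⟨fun j => (sq j).1.1, fun j => (sq j).1.2, fun j => (sq j).2, rfl, fun j => ?_⟩
  exact ⟨G j _ _ (sq j).2, rfl, hG j _ _ (sq j).2⟩

/-- Failure of the Titchmarsh convolution theorem for summable times bounded functions on the
rationals. -/
theorem titchmarsh_fails : ∃ F φ : ℚ → ℝ, Summable F ∧ (∀ q, 0 ≤ F q) ∧
    (∀ q, F q ≠ 0 → 0 < q ∧ q ≤ 1) ∧ (∀ ε : ℝ, 0 < ε → ∃ q : ℚ, (q : ℝ) < ε ∧ F q ≠ 0) ∧
    (∀ q, |φ q| ≤ 1) ∧ (∀ q, 1 < q → φ q = 0) ∧ φ 1 = 1 ∧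
    ∀ s : ℚ, 0 ≤ s → ∑' r, F r * φ (r + s) = 0 := by
  obtain ⟨f, ψ, hI, hf0, hstep⟩ := exists_seq
  have hmono : ∀ q, Monotone fun j => (f j).coeff q := by
    intro q
    refine monotone_nat_of_le_succ fun j => ?_
    obtain ⟨g, h1, h2, -⟩ := hstep j
    rw [h1]
    simpa using h2 q
  have hnn : ∀ j q, 0 ≤ (f j).coeff q := by
    intro j q
    have := hmono q (Nat.zero_le j)
    simpa [hf0] using this
  have hNB : ∀ j, NB 1 (f j) := fun j => (hI j).fn.mono (by
    have : (0 : ℝ) < 1 / 2 ^ j := by positivity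
    linarith)
  have hbdd : ∀ q, BddAbove (Set.range fun j => (f j).coeff q) := by
    intro q
    refine ⟨1, ?_⟩
    rintro _ ⟨j, rfl⟩
    have := hNB j {q}
    rw [Finset.sum_singleton] at this
    exact (le_abs_self _).trans this
  have hsupp : ∀ j, Supp (Set.Ioc 0 1) (f j) := by
    intro j
    induction j with
    | zero => rw [hf0]; exact Supp.zero _
    | succ j ih =>
      obtain ⟨g, h1, -, h3, -⟩ := hstep j
      rw [h1]
      refine ih.add (h3.mono fun t ht => ⟨lt_trans (by positivity) ht.1, ht.2.trans ?_⟩)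
      have h4 : (1 : ℚ) ≤ 4 ^ j := one_le_pow₀ (by norm_num)
      rw [pow_succ, mul_one_div, div_le_one (by positivity)]
      linarith
  set F : ℚ → ℝ := fun q => ⨆ j, (f j).coeff q with hF
  have hFt : ∀ q, Tendsto (fun j => (f j).coeff q) atTop (𝓝 (F q)) := fun q =>
    tendsto_atTop_ciSup (hmono q) (hbdd q)
  have hFle : ∀ j q, (f j).coeff q ≤ F q := fun j q => le_ciSup (hbdd q) j
  have hF0 : ∀ q, 0 ≤ F q := fun q => (hnn 0 q).trans (hFle 0 q)
  have hFsum : Summable F := by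
    refine summable_of_sum_le (c := 1) hF0 fun s => ?_
    refine le_of_tendsto' (tendsto_finsetSum s fun q _ => hFt q) fun j => ?_
    exact (Finset.sum_le_sum fun q _ => le_abs_self _).trans (hNB j s)
  have hFsupp : ∀ q, F q ≠ 0 → 0 < q ∧ q ≤ 1 := by
    intro q hq
    by_contra hcon
    refine hq ?_
    have : ∀ j, (f j).coeff q = 0 := fun j => by
      by_contra h
      exact hcon (hsupp j q h)
    simp [hF, this]
  let φs : ℕ → ℚ → ℝ := fun j q => if 0 ≤ q then (ψ j).coeff (1 - q) else 0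
  have hφb : ∀ j q, |φs j q| ≤ 1 := by
    intro j q
    simp only [φs]
    split_ifs with h
    · refine (hI j).pb _ ?_
      have : (0 : ℚ) < 1 / 4 ^ j := by positivity
      linarith
    · simp
  have hcomp : IsCompact (Set.univ.pi fun _ : ℚ => Set.Icc (-1 : ℝ) 1) :=
    isCompact_univ_pi fun _ => isCompact_Icc
  obtain ⟨φ, hφ, κ, hκ, hlim⟩ := hcomp.tendsto_subseq (x := φs)
    (fun j q _ => abs_le.1 (hφb j q))
  have hlim' : ∀ q, Tendsto (fun j => φs (κ j) q) atTop (𝓝 (φ q)) := fun q =>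
    tendsto_pi_nhds.1 hlim q
  refine ⟨F, φ, hFsum, hF0, hFsupp, ?_, fun q => abs_le.2 (hφ q (Set.mem_univ _)), ?_, ?_, ?_⟩
  · intro ε hε
    obtain ⟨j, hj⟩ := exists_pow_lt_of_lt_one hε (show (1 / 4 : ℝ) < 1 by norm_num)
    obtain ⟨g, h1, h2, h3, t, ht⟩ := hstep j
    refine ⟨t, ?_, ?_⟩
    · have h4 := (h3 t ht).2
      have h5 : (t : ℝ) ≤ 2 * (1 / 4 ^ (j + 1)) := by
        have h6 : (t : ℝ) ≤ ((2 * (1 / 4 ^ (j + 1)) : ℚ) : ℝ) := Rat.cast_le.2 h4
        push_cast at h6
        exact h6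
      refine lt_of_le_of_lt (h5.trans ?_) hj
      rw [one_div_pow, pow_succ]
      have : (0 : ℝ) < 4 ^ j := by positivity
      field_simp
      norm_num
    · have h4 := hFle (j + 1) t
      rw [h1] at h4
      simp only [AddMonoidAlgebra.coeff_add, Finsupp.add_apply] at h4
      have h5 := hnn j t
      have h6 : 0 < g.coeff t := lt_of_le_of_ne (h2 t) (Ne.symm ht)
      linarith
  · intro q hq
    refine tendsto_nhds_unique (hlim' q) (tendsto_const_nhds.congr fun j => ?_)
    simp only [φs]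
    rw [if_pos (by linarith), (hI (κ j)).ps.coeff_eq_zero (by linarith)]
  · refine tendsto_nhds_unique (hlim' 1) (tendsto_const_nhds.congr fun j => ?_)
    simp only [φs]
    rw [if_pos (by norm_num), sub_self, (hI (κ j)).p0]
  · intro s hs
    have h1 : Tendsto (fun j => ∑' r, (f (κ j)).coeff r * φs (κ j) (r + s)) atTop
        (𝓝 (∑' r, F r * φ (r + s))) := by
      refine tendsto_tsum_of_dominated_convergence hFsum (fun r => ?_)
        (Eventually.of_forall fun j r => ?_)
      · exact ((hFt r).comp hκ.tendsto_atTop).mul (hlim' (r + s))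
      · rw [Real.norm_eq_abs, abs_mul, abs_of_nonneg (hnn _ _)]
        calc (f (κ j)).coeff r * |φs (κ j) (r + s)| ≤ (f (κ j)).coeff r * 1 :=
              mul_le_mul_of_nonneg_left (hφb _ _) (hnn _ _)
          _ ≤ F r := by rw [mul_one]; exact hFle _ _
    have h2 : ∀ j, ∑' r, (f j).coeff r * φs j (r + s) = (f j * ψ j).coeff (1 - s) := by
      intro j
      rw [coeff_mul', tsum_eq_sum (s := (f j).coeff.support)]
      · refine Finset.sum_congr rfl fun r hr => ?_
        have h3 := (hsupp j r (Finsupp.mem_support_iff.1 hr)).1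
        simp only [φs]
        rw [if_pos (by linarith)]
        congr 2
        ring
      · intro r hr
        rw [Finsupp.notMem_support_iff.1 hr, zero_mul]
    have h3 : ∀ j, ‖∑' r, (f j).coeff r * φs j (r + s)‖ ≤ (1 / 2 : ℝ) ^ j := by
      intro j
      rw [h2, Real.norm_eq_abs]
      refine ((hI j).eb _ ?_).trans ?_
      · have : (0 : ℚ) < 1 / 4 ^ j := by positivity
        linarith
      · have h4 : (1 / 2 ^ (j + 1) : ℝ) ≤ 1 := by
          rw [div_le_one (by positivity)]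
          exact one_le_pow₀ (by norm_num)
        refine (pow_le_of_le_one (by positivity) h4 (by positivity)).trans ?_
        rw [one_div_pow]
        refine one_div_le_one_div_of_le (by positivity) ?_
        exact pow_le_pow_right₀ (by norm_num) (Nat.le_succ j)
    have h4 : Tendsto (fun j => ∑' r, (f j).coeff r * φs j (r + s)) atTop (𝓝 0) :=
      squeeze_zero_norm h3 (tendsto_pow_atTop_nhds_zero_of_lt_one (by norm_num) (by norm_num))
    exact tendsto_nhds_unique h1 (h4.comp hκ.tendsto_atTop)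

end Pool.Agent.H67Z.Titch
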